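import Mathlib
import Pool.Agent.H71.AAE.Defs
import Pool.Agent.H71.AAE.G1b
import Pool.Agent.H71.AAE.G1c
import Pool.Agent.H85.AAE2.Defs

/-!
# Project AAE2, module GENA: for generic shears no tangent vector is collapsed at a point of
self-intersection
-/

set_option autoImplicit false

open Polynomial

namespace Pool.Agent.H85.AAE2

open Pool.Agent.H71.AAE

universe u

/-- the derivative in the direction of the second copy of the variables -/
noncomputable def ddA (k : Type u) [Field k] (m : ℕ) (b : MvPolynomial (Fin m) k) :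
    MvPolynomial (Fin 3 × Fin m) k :=
  ∑ j, MvPolynomial.X (1, j) * cp m k 0 (MvPolynomial.pderiv j b)

theorem generic_no_tangent_point {k : Type u} [Field k] {N m : ℕ} (hNm : 3 * m < 2 * N)
    (f : Fin (N + 1) → MvPolynomial (Fin m) k) :
    ∃ P : MvPolynomial (Fin N × Fin 2) k, P ≠ 0 ∧ ∀ lam : Fin N × Fin 2 → k,
      MvPolynomial.eval lam P ≠ 0 → ∀ (Ω : Type u) [Field Ω] [Algebra k Ω]
      (θ : MvPolynomial (Fin m) k →ₐ[k] DualNumber Ω) (q : MvPolynomial (Fin m) k →ₐ[k] Ω),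
      TrivSqZeroExt.snd (θ (f 0)) ≠ 0 → TrivSqZeroExt.fst (θ (f 0)) ≠ q (f 0) →
      (∀ ρ, TrivSqZeroExt.snd (θ (shear f lam (C ρ))) = 0) →
      (∀ ρ, TrivSqZeroExt.fst (θ (shear f lam (C ρ))) = q (shear f lam (C ρ))) → False := by
  set δ := ddA k m (f 0) with hδ
  set Δ := cp m k 0 (f 0) - cp m k 2 (f 0) with hΔ
  set D := δ * Δ with hD
  set L := Localization.Away D with hL
  set ι : MvPolynomial (Fin 3 × Fin m) k →+* L := algebraMap _ L with hι
  set d : L := IsLocalization.Away.invSelf D with hd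
  have hdD : ι D * d = 1 := IsLocalization.Away.mul_invSelf D
  set s : Fin N → L := fun i => ι (ddA k m (f i.succ)) * d * ι Δ with hs
  set t : Fin N → L := fun i => ι (cp m k 0 (f i.succ) - cp m k 2 (f i.succ)) * d * ι δ with ht
  set l1 : Fin N → L := fun i => (t i - s i) * d * ι δ with hl1
  set l0 : Fin N → L := fun i => - s i - 2 * l1 i * ι (cp m k 0 (f 0)) with hl0
  obtain ⟨P, hP, hrel⟩ := exists_rel (k := k) (σ := Fin 3 × Fin m) (τ := Fin N × Fin 2)
    (by simp; omega) D (fun x => if x.2 = 0 then l0 x.1 else l1 x.1)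
  refine ⟨P, hP, ?_⟩
  intro lam hlam Ω _ _ θ q hg hpq h1 h2
  apply hlam
  -- specialise
  set x : Fin 3 × Fin m → Ω := fun y => if y.1 = 0 then fstH θ (MvPolynomial.X y.2) else
    if y.1 = 1 then TrivSqZeroExt.snd (θ (MvPolynomial.X y.2)) else q (MvPolynomial.X y.2) with hx
  have hc0 : ∀ b, MvPolynomial.aeval x (cp m k 0 b) = fstH θ b := by
    intro b
    have : (MvPolynomial.aeval x).comp (cp m k 0) = fstH θ := by
      apply MvPolynomial.algHom_ext
      intro i
      simp [cp, hx]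
    exact congrArg (fun g => g b) this
  have hc2 : ∀ b, MvPolynomial.aeval x (cp m k 2 b) = q b := by
    intro b
    have : (MvPolynomial.aeval x).comp (cp m k 2) = q := by
      apply MvPolynomial.algHom_ext
      intro i
      simp [cp, hx]
    exact congrArg (fun g => g b) this
  have hdd : ∀ b, MvPolynomial.aeval x (ddA k m b) = TrivSqZeroExt.snd (θ b) := by
    intro b
    rw [ddA, map_sum, snd_theta]
    refine Finset.sum_congr rfl fun j _ => ?_
    rw [map_mul, hc0, MvPolynomial.aeval_X]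
    simp [hx]
  have hDe : MvPolynomial.aeval x D =
      TrivSqZeroExt.snd (θ (f 0)) * (fstH θ (f 0) - q (f 0)) := by
    rw [hD, hδ, hΔ, map_mul, hdd, map_sub, hc0, hc2]
  have hDu : TrivSqZeroExt.snd (θ (f 0)) * (fstH θ (f 0) - q (f 0)) ≠ 0 :=
    mul_ne_zero hg (sub_ne_zero.2 hpq)
  obtain ⟨Φ, hΦ⟩ := spec D (T := Ω) x (by rw [hDe]; exact Ne.isUnit hDu)
  have hΦd : TrivSqZeroExt.snd (θ (f 0)) * (fstH θ (f 0) - q (f 0)) * Φ d = 1 := by
    have := congrArg Φ hdD
    rwa [map_mul, hι, hΦ, hDe, map_one] at this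
  have e0 : ∀ b, Φ (ι (cp m k 0 b)) = fstH θ b := fun b => by rw [hι, hΦ, hc0]
  have e2 : ∀ b, Φ (ι (cp m k 2 b)) = q b := fun b => by rw [hι, hΦ, hc2]
  have e1 : ∀ b, Φ (ι (ddA k m b)) = TrivSqZeroExt.snd (θ b) := fun b => by rw [hι, hΦ, hdd]
  have eδ : Φ (ι δ) = TrivSqZeroExt.snd (θ (f 0)) := e1 _
  have eΔ : Φ (ι Δ) = fstH θ (f 0) - q (f 0) := by
    rw [hΔ, map_sub, map_sub, e0, e2]
  have r1 : ∀ i : Fin N, TrivSqZeroExt.snd (θ (f i.succ)) = -(algebraMap k Ω (lam (i, 0)) +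
      2 * algebraMap k Ω (lam (i, 1)) * fstH θ (f 0)) * TrivSqZeroExt.snd (θ (f 0)) := by
    intro i
    have h2 := h1 (MvPolynomial.X i)
    rw [hom_shear_CX, TrivSqZeroExt.snd_add, TrivSqZeroExt.snd_add,
      TrivSqZeroExt.algebraMap_eq_inl', TrivSqZeroExt.algebraMap_eq_inl', pow_two,
      TrivSqZeroExt.snd_mul, TrivSqZeroExt.snd_mul, TrivSqZeroExt.snd_mul] at h2
    simp only [TrivSqZeroExt.fst_inl, TrivSqZeroExt.snd_inl, smul_eq_mul, smul_zero,
      MulOpposite.smul_eq_mul_unop, MulOpposite.unop_op, add_zero] at h2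
    rw [fstH_apply]
    linear_combination h2
  have r2 : ∀ i : Fin N, (fstH θ (f i.succ) - q (f i.succ)) = -(algebraMap k Ω (lam (i, 0)) +
      algebraMap k Ω (lam (i, 1)) * (fstH θ (f 0) + q (f 0))) * (fstH θ (f 0) - q (f 0)) := by
    intro i
    have h3 : fstH θ (shear f lam (C (MvPolynomial.X i))) =
        q (shear f lam (C (MvPolynomial.X i))) := h2 (MvPolynomial.X i)
    rw [hom_shear_CX, hom_shear_CX] at h3
    linear_combination h3
  have es : ∀ i, Φ (s i) = -(algebraMap k Ω (lam (i, 0)) +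
      2 * algebraMap k Ω (lam (i, 1)) * fstH θ (f 0)) := by
    intro i
    simp only [hs, map_mul, e1, eΔ, r1]
    linear_combination (-(algebraMap k Ω (lam (i, 0)) +
      2 * algebraMap k Ω (lam (i, 1)) * fstH θ (f 0))) * hΦd
  have et : ∀ i, Φ (t i) = -(algebraMap k Ω (lam (i, 0)) +
      algebraMap k Ω (lam (i, 1)) * (fstH θ (f 0) + q (f 0))) := by
    intro i
    simp only [ht, map_mul, map_sub, e0, e2, eδ, r2]
    linear_combination (-(algebraMap k Ω (lam (i, 0)) +
      algebraMap k Ω (lam (i, 1)) * (fstH θ (f 0) + q (f 0)))) * hΦd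
  have el1 : ∀ i, Φ (l1 i) = algebraMap k Ω (lam (i, 1)) := by
    intro i
    simp only [hl1, map_mul, map_sub, eδ, es, et]
    linear_combination (algebraMap k Ω (lam (i, 1))) * hΦd
  have el0 : ∀ i, Φ (l0 i) = algebraMap k Ω (lam (i, 0)) := by
    intro i
    have e3 : Φ 2 = 2 := map_ofNat Φ 2
    simp only [hl0, map_mul, map_sub, map_neg, e0, es, el1, e3]
    ring
  refine eval_eq_zero_of (T := Ω) lam P (rel_spec Φ _ P hrel _ ?_)
  rintro ⟨i, j⟩
  by_cases hj : j = 0
  · subst hj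
    rw [if_pos rfl, el0]
  · have hj1 : j = 1 := by omega
    subst hj1
    rw [if_neg hj, el1]

end Pool.Agent.H85.AAE2
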