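import Mathlib
import Pool.Agent.H71.AAE.Defs
import Pool.Agent.H71.AAE.G1b
import Pool.Agent.H85.AAE2.Defs

/-!
# Project AAE2, module GENB: for generic shears no jet of order two is collapsed
-/

set_option autoImplicit false

open Polynomial

namespace Pool.Agent.H85.AAE2

open Pool.Agent.H71.AAE

universe u

/-- the universal jet of order two -/
noncomputable def jetU (k : Type u) [Field k] (m : ℕ) :
    MvPolynomial (Fin m) k →ₐ[k] (MvPolynomial (Fin 3 × Fin m) k)[X] :=
  MvPolynomial.aeval fun j => C (MvPolynomial.X (0, j)) + C (MvPolynomial.X (1, j)) * X +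
    C (MvPolynomial.X (2, j)) * X ^ 2

/-- the coefficients of the universal jet -/
noncomputable def jc (k : Type u) [Field k] (m n : ℕ) (b : MvPolynomial (Fin m) k) :
    MvPolynomial (Fin 3 × Fin m) k := (jetU k m b).coeff n

theorem coeff_two_mul {R : Type u} [CommRing R] (p q : R[X]) :
    (p * q).coeff 2 = p.coeff 0 * q.coeff 2 + p.coeff 1 * q.coeff 1 + p.coeff 2 * q.coeff 0 := by
  rw [coeff_mul, show Finset.HasAntidiagonal.antidiagonal 2 =
    ({(0, 2), (1, 1), (2, 0)} : Finset (ℕ × ℕ)) from rfl]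
  rw [Finset.sum_insert (by decide), Finset.sum_insert (by decide), Finset.sum_singleton]
  ring

theorem jet_spec {k : Type u} [Field k] {m : ℕ} {Ω : Type u} [Field Ω] [Algebra k Ω]
    (θ : MvPolynomial (Fin m) k →ₐ[k] Polynomial Ω) (b : MvPolynomial (Fin m) k) :
    ∀ n : ℕ, n < 3 → MvPolynomial.aeval
      (fun y : Fin 3 × Fin m => (θ (MvPolynomial.X y.2)).coeff (y.1 : ℕ)) (jc k m n b) =
      (θ b).coeff n := by
  set x : Fin 3 × Fin m → Ω := fun y => (θ (MvPolynomial.X y.2)).coeff (y.1 : ℕ) with hx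
  induction b using MvPolynomial.induction_on with
  | C a =>
    intro n hn
    have h1 : jetU k m (MvPolynomial.C a) = C (MvPolynomial.C a) := by
      rw [← MvPolynomial.algebraMap_eq, AlgHom.commutes]
      rfl
    have h2 : θ (MvPolynomial.C a) = C (algebraMap k Ω a) := by
      rw [← MvPolynomial.algebraMap_eq, AlgHom.commutes]
      rfl
    rw [jc, h1, h2, coeff_C, coeff_C]
    split_ifs with h
    · rw [← MvPolynomial.algebraMap_eq, AlgHom.commutes]
    · rw [map_zero]
  | add p q hp hq =>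
    intro n hn
    rw [jc, map_add, coeff_add, map_add, map_add, coeff_add, ← hp n hn, ← hq n hn]
    rfl
  | mul_X p i hp =>
    intro n hn
    have h1 : jetU k m (MvPolynomial.X i) = C (MvPolynomial.X (0, i)) +
        C (MvPolynomial.X (1, i)) * X + C (MvPolynomial.X (2, i)) * X ^ 2 := by
      rw [jetU, MvPolynomial.aeval_X]
    have hX : ∀ l : ℕ, l < 3 → MvPolynomial.aeval x ((jetU k m (MvPolynomial.X i)).coeff l) =
        (θ (MvPolynomial.X i)).coeff l := by
      intro l hl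
      rw [h1]
      interval_cases l
      · simp [hx]
      · simp [hx, coeff_C]
      · simp [hx]
    rw [jc, map_mul, map_mul, coeff_mul, coeff_mul, map_sum]
    refine Finset.sum_congr rfl fun z hz => ?_
    have hz' := Finset.HasAntidiagonal.mem_antidiagonal.1 hz
    rw [map_mul, hX z.2 (by omega), ← hp z.1 (by omega)]
    rfl

theorem generic_no_jet {k : Type u} [Field k] {N m : ℕ} (hNm : 3 * m < 2 * N)
    (f : Fin (N + 1) → MvPolynomial (Fin m) k) :
    ∃ P : MvPolynomial (Fin N × Fin 2) k, P ≠ 0 ∧ ∀ lam : Fin N × Fin 2 → k,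
      MvPolynomial.eval lam P ≠ 0 → ∀ (Ω : Type u) [Field Ω] [Algebra k Ω]
      (θ : MvPolynomial (Fin m) k →ₐ[k] Polynomial Ω), (θ (f 0)).coeff 1 ≠ 0 →
      (∀ ρ, (θ (shear f lam (C ρ))).coeff 1 = 0) →
      (∀ ρ, (θ (shear f lam (C ρ))).coeff 2 = 0) → False := by
  set D := jc k m 1 (f 0) with hD
  set L := Localization.Away D with hL
  set ι : MvPolynomial (Fin 3 × Fin m) k →+* L := algebraMap _ L with hι
  set d : L := IsLocalization.Away.invSelf D with hd
  have hdD : ι D * d = 1 := IsLocalization.Away.mul_invSelf D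
  set l1 : Fin N → L := fun i => ι (jc k m 1 (f i.succ) * jc k m 2 (f 0) -
    jc k m 2 (f i.succ) * jc k m 1 (f 0)) * (d * (d * d)) with hl1
  set l0 : Fin N → L := fun i => -ι (jc k m 1 (f i.succ)) * d -
    2 * l1 i * ι (jc k m 0 (f 0)) with hl0
  obtain ⟨P, hP, hrel⟩ := exists_rel (k := k) (σ := Fin 3 × Fin m) (τ := Fin N × Fin 2)
    (by simp; omega) D (fun x => if x.2 = 0 then l0 x.1 else l1 x.1)
  refine ⟨P, hP, ?_⟩
  intro lam hlam Ω _ _ θ hg h1 h2
  apply hlam
  -- specialise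
  set x : Fin 3 × Fin m → Ω := fun y => (θ (MvPolynomial.X y.2)).coeff (y.1 : ℕ) with hx
  have hjc : ∀ (n : ℕ) (_ : n < 3) (b : MvPolynomial (Fin m) k),
      MvPolynomial.aeval x (jc k m n b) = (θ b).coeff n := fun n hn b => jet_spec θ b n hn
  have hDe : MvPolynomial.aeval x D = (θ (f 0)).coeff 1 := hjc 1 (by norm_num) _
  obtain ⟨Φ, hΦ⟩ := spec D (T := Ω) x (by rw [hDe]; exact Ne.isUnit hg)
  have hΦd : (θ (f 0)).coeff 1 * Φ d = 1 := by
    have := congrArg Φ hdD
    rwa [map_mul, hι, hΦ, hDe, map_one] at this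
  have e0 : ∀ b, Φ (ι (jc k m 0 b)) = (θ b).coeff 0 := fun b => by
    rw [hι, hΦ, hjc 0 (by norm_num)]
  have e1 : ∀ b, Φ (ι (jc k m 1 b)) = (θ b).coeff 1 := fun b => by
    rw [hι, hΦ, hjc 1 (by norm_num)]
  have e2 : ∀ b, Φ (ι (jc k m 2 b)) = (θ b).coeff 2 := fun b => by
    rw [hι, hΦ, hjc 2 (by norm_num)]
  have hal : ∀ c : k, algebraMap k (Polynomial Ω) c = C (algebraMap k Ω c) := fun c => rfl
  have r1 : ∀ i : Fin N, (θ (f i.succ)).coeff 1 = -(algebraMap k Ω (lam (i, 0)) +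
      2 * algebraMap k Ω (lam (i, 1)) * (θ (f 0)).coeff 0) * (θ (f 0)).coeff 1 := by
    intro i
    have h3 := h1 (MvPolynomial.X i)
    rw [hom_shear_CX, hal, hal, coeff_add, coeff_add, coeff_C_mul, coeff_C_mul, pow_two,
      mul_coeff_one] at h3
    linear_combination h3
  have r2 : ∀ i : Fin N, (θ (f i.succ)).coeff 2 = -(algebraMap k Ω (lam (i, 0)) *
      (θ (f 0)).coeff 2 + algebraMap k Ω (lam (i, 1)) *
      (2 * (θ (f 0)).coeff 0 * (θ (f 0)).coeff 2 + (θ (f 0)).coeff 1 * (θ (f 0)).coeff 1)) := by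
    intro i
    have h3 := h2 (MvPolynomial.X i)
    rw [hom_shear_CX, hal, hal, coeff_add, coeff_add, coeff_C_mul, coeff_C_mul, pow_two,
      coeff_two_mul] at h3
    linear_combination h3
  have el1 : ∀ i, Φ (l1 i) = algebraMap k Ω (lam (i, 1)) := by
    intro i
    have h4 : ((θ (f 0)).coeff 1) ^ 3 * (Φ d * (Φ d * Φ d)) = 1 := by
      have : ((θ (f 0)).coeff 1) ^ 3 * (Φ d * (Φ d * Φ d)) =
        ((θ (f 0)).coeff 1 * Φ d) ^ 3 := by ring
      rw [this, hΦd, one_pow]
    simp only [hl1, map_mul, map_sub, e1, e2, r1, r2]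
    linear_combination (algebraMap k Ω (lam (i, 1))) * h4
  have el0 : ∀ i, Φ (l0 i) = algebraMap k Ω (lam (i, 0)) := by
    intro i
    have e3 : Φ 2 = 2 := map_ofNat Φ 2
    simp only [hl0, map_mul, map_sub, map_neg, e0, e1, el1, e3, r1]
    linear_combination (algebraMap k Ω (lam (i, 0)) +
      2 * algebraMap k Ω (lam (i, 1)) * (θ (f 0)).coeff 0) * hΦd
  refine eval_eq_zero_of (T := Ω) lam P (rel_spec Φ _ P hrel _ ?_)
  rintro ⟨i, j⟩
  by_cases hj : j = 0
  · subst hj
    rw [if_pos rfl, el0]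
  · have hj1 : j = 1 := by omega
    subst hj1
    rw [if_neg hj, el1]

end Pool.Agent.H85.AAE2
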