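import Mathlib
import Pool.Agent.H71.AAE.Defs
import Pool.Agent.H71.AAE.N
import Pool.Agent.H71.AAE.U
import Pool.Agent.H71.AAE.M3
import Pool.Agent.H85.AAE2.Defs

/-!
# Project AAE2, module MA, part 1: the conormal module is generated by `r + 3` elements
-/

set_option autoImplicit false

open Polynomial

namespace Pool.Agent.H85.AAE2

open Pool.Agent.H71.AAE

universe u

variable {k : Type u} [Field k] {N m r : ℕ}
  (φ : (MvPolynomial (Fin N) k)[X] →ₐ[k] MvPolynomial (Fin m) k)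

/-- (MA1) the conormal module is generated by `r + 3` elements -/
theorem gens (hN : N = m + r + 2) (hφ : Function.Surjective φ) :
    ∃ e : Fin (r + 3) → (MvPolynomial (Fin N) k)[X], (∀ i, φ (e i) = 0) ∧
      RingHom.ker φ ≤ Ideal.span (Set.range e) ⊔ (RingHom.ker φ) ^ 2 := by
  let E := MvPolynomial.finSuccEquiv k N
  let φ₀ : MvPolynomial (Fin (N + 1)) k →ₐ[k] MvPolynomial (Fin m) k :=
    φ.comp (E : MvPolynomial (Fin (N + 1)) k →ₐ[k] (MvPolynomial (Fin N) k)[X])
  have hφ₀ : Function.Surjective φ₀ := hφ.comp E.surjective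
  have happ : ∀ h, φ₀ h = φ (E h) := fun h => rfl
  have hE : ∀ h, φ₀ (E.symm h) = φ h := fun h => by rw [happ, AlgEquiv.apply_symm_apply]
  obtain ⟨e2⟩ := conor_split φ₀ hφ₀
  have e3 : (conor φ₀ × (Fin m → MvPolynomial (Fin m) k)) ≃ₗ[MvPolynomial (Fin m) k]
      (Fin ((r + 3) + m) → MvPolynomial (Fin m) k) :=
    e2.trans (LinearEquiv.funCongrLeft _ _ (finCongr (by omega)))
  obtain ⟨κ⟩ := free_of_stably (k := k) (m := m) (d := r + 3) (l := m)
    (M := conor φ₀) (by omega) e3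
  have hk : ∀ i : Fin (r + 3), ∃ h, φ h = 0 ∧ grad φ₀ (E.symm h) = (κ.symm (Pi.single i 1)).1 := by
    intro i
    obtain ⟨h, h1, h2⟩ := grad_surj φ₀ hφ₀ (κ.symm (Pi.single i 1)).2
    exact ⟨E h, h1, by rw [AlgEquiv.symm_apply_apply, h2]⟩
  choose kk hk1 hk2 using hk
  refine ⟨kk, hk1, fun h hh => ?_⟩
  have hh0 : φ h = 0 := RingHom.mem_ker.1 hh
  let x : conor φ₀ := ⟨grad φ₀ (E.symm h), grad_mem φ₀ (by rw [hE, hh0])⟩
  choose ti hti using fun i => hφ (κ x i)
  have h2 : x = ∑ i, κ x i • κ.symm (Pi.single i 1) := by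
    apply κ.injective
    rw [map_sum]
    simp only [map_smul, LinearEquiv.apply_symm_apply]
    ext1 j
    simp [Finset.sum_apply, Pi.single_apply]
  have h3 : grad φ₀ (E.symm h) = ∑ i, κ x i • (κ.symm (Pi.single i 1)).1 := by
    have h4 := congrArg (fun z : conor φ₀ => z.1) h2
    rw [show grad φ₀ (E.symm h) = x.1 from rfl]
    refine h4.trans ?_
    simp
  have h6 : E.symm (h - ∑ i, ti i * kk i) ∈ (RingHom.ker φ₀) ^ 2 := by
    apply grad_ker φ₀ hφ₀
    · rw [hE, map_sub, map_sum, hh0]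
      simp [hk1]
    · rw [map_sub, map_sum, grad_sub, grad_sum]
      have h7 : ∀ i, grad φ₀ (E.symm (ti i * kk i)) =
          κ x i • (κ.symm (Pi.single i 1)).1 := by
        intro i
        rw [map_mul, grad_mul _ _ _ (by rw [hE, hk1]), hE, hti, hk2]
      simp only [h7]
      rw [h3, sub_self]
  have h8 : Ideal.map (E : MvPolynomial (Fin (N + 1)) k →+* (MvPolynomial (Fin N) k)[X])
      (RingHom.ker φ₀) ≤ RingHom.ker φ := by
    rw [Ideal.map_le_iff_le_comap]
    intro z hz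
    exact hz
  have h9 := Ideal.mem_map_of_mem
    (E : MvPolynomial (Fin (N + 1)) k →+* (MvPolynomial (Fin N) k)[X]) h6
  rw [Ideal.map_pow] at h9
  have h10 := Ideal.pow_right_mono h8 2 h9
  have h11 : (E : MvPolynomial (Fin (N + 1)) k →+* (MvPolynomial (Fin N) k)[X])
      (E.symm (h - ∑ i, ti i * kk i)) = h - ∑ i, ti i * kk i :=
    E.apply_symm_apply _
  rw [h11] at h10
  have h12 : h = ∑ i, ti i * kk i + (h - ∑ i, ti i * kk i) := by ring
  rw [h12]
  refine Submodule.add_mem_sup ?_ h10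
  exact Ideal.sum_mem _ fun i _ => Ideal.mul_mem_left _ _ (Ideal.subset_span ⟨i, rfl⟩)

end Pool.Agent.H85.AAE2
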