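import Mathlib
import Pool.Agent.H71.AAE.Defs
import Pool.Agent.H71.AAE.M2
import Pool.Agent.H85.AAE2.Defs

/-!
# Project AAE2, module MA, part 2: elementary moves on the generators of the conormal module
-/

set_option autoImplicit false

open Polynomial

namespace Pool.Agent.H85.AAE2

open Pool.Agent.H71.AAE

universe u

section moves

variable {A : Type u} [CommRing A] {n : ℕ}

/-- subtract multiples of the other entries from the first entry -/
def mvH (e : Fin (n + 1) → A) (z : Fin n → A) : Fin (n + 1) → A :=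
  Fin.cons (e 0 - ∑ j, z j * e j.succ) fun j => e j.succ

/-- subtract multiples of the first entry from the other entries -/
def mvT (e : Fin (n + 1) → A) (u : Fin n → A) : Fin (n + 1) → A :=
  Fin.cons (e 0) fun j => e j.succ - u j * e 0

theorem mvH_span (e : Fin (n + 1) → A) (z : Fin n → A) :
    Ideal.span (Set.range e) ≤ Ideal.span (Set.range (mvH e z)) := by
  have hs : ∀ j : Fin n, e j.succ ∈ Ideal.span (Set.range (mvH e z)) := fun j =>
    Ideal.subset_span ⟨j.succ, by simp [mvH]⟩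
  rw [Ideal.span_le]
  rintro _ ⟨i, rfl⟩
  refine Fin.cases ?_ (fun j => hs j) i
  have h1 : e 0 = mvH e z 0 + ∑ j, z j * e j.succ := by simp [mvH]
  rw [h1]
  exact Ideal.add_mem _ (Ideal.subset_span ⟨0, rfl⟩)
    (Ideal.sum_mem _ fun j _ => Ideal.mul_mem_left _ _ (hs j))

theorem mvT_span (e : Fin (n + 1) → A) (u : Fin n → A) :
    Ideal.span (Set.range e) ≤ Ideal.span (Set.range (mvT e u)) := by
  have h0 : e 0 ∈ Ideal.span (Set.range (mvT e u)) := Ideal.subset_span ⟨0, by simp [mvT]⟩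
  rw [Ideal.span_le]
  rintro _ ⟨i, rfl⟩
  refine Fin.cases h0 (fun j => ?_) i
  have h1 : e j.succ = mvT e u j.succ + u j * e 0 := by simp [mvT]
  rw [h1]
  exact Ideal.add_mem _ (Ideal.subset_span ⟨j.succ, rfl⟩) (Ideal.mul_mem_left _ _ h0)

theorem mvH_zero {B F : Type*} [CommRing B] [FunLike F A B] [RingHomClass F A B] (φ : F) {e : Fin (n + 1) → A}
    (he : ∀ i, φ (e i) = 0) (z : Fin n → A) (i : Fin (n + 1)) : φ (mvH e z i) = 0 := by
  refine Fin.cases ?_ (fun j => ?_) i
  · simp [mvH, he]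
  · simp [mvH, he]

theorem mvT_zero {B F : Type*} [CommRing B] [FunLike F A B] [RingHomClass F A B] (φ : F) {e : Fin (n + 1) → A}
    (he : ∀ i, φ (e i) = 0) (z : Fin n → A) (i : Fin (n + 1)) : φ (mvT e z i) = 0 := by
  refine Fin.cases ?_ (fun j => ?_) i
  · simp [mvT, he]
  · simp [mvT, he]

theorem mvH_sum (e α : Fin (n + 1) → A) (z : Fin n → A) :
    ∑ i, mvT α (fun j => -z j) i * mvH e z i = ∑ i, α i * e i := by
  rw [Fin.sum_univ_succ, Fin.sum_univ_succ]
  simp only [mvT, mvH, Fin.cons_zero, Fin.cons_succ]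
  have h1 : ∀ j, (α j.succ - -z j * α 0) * e j.succ = α j.succ * e j.succ +
      α 0 * (z j * e j.succ) := fun j => by ring
  simp only [h1, Finset.sum_add_distrib, ← Finset.mul_sum]
  ring

theorem mvT_sum (e α : Fin (n + 1) → A) (u : Fin n → A) :
    ∑ i, mvH α (fun j => -u j) i * mvT e u i = ∑ i, α i * e i := by
  rw [Fin.sum_univ_succ, Fin.sum_univ_succ]
  simp only [mvT, mvH, Fin.cons_zero, Fin.cons_succ]
  have h1 : ∀ j, α j.succ * (e j.succ - u j * e 0) = α j.succ * e j.succ -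
      (u j * α j.succ) * e 0 := fun j => by ring
  have h2 : ∑ j, -u j * α j.succ = -∑ j, u j * α j.succ := by
    rw [← Finset.sum_neg_distrib]
    exact Finset.sum_congr rfl fun j _ => by ring
  simp only [h1, Finset.sum_sub_distrib, ← Finset.sum_mul]
  rw [h2]
  ring

end moves

variable {k : Type u} [Field k] {N m r : ℕ}
  (φ : (MvPolynomial (Fin N) k)[X] →ₐ[k] MvPolynomial (Fin m) k)
  {s p : MvPolynomial (Fin N) k}

/-- the elementary part of Step 3: `a ≡ Σ α i * e i`, and after adding multiples of `φ (α 0)` the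
other coefficients are unimodular modulo `c ^ l` -/
theorem gens3_core (hφ : Function.Surjective φ) (hg : φ X ^ 2 = φ (C s) * φ X - φ (C p))
    {n : ℕ} (J : Ideal (MvPolynomial (Fin m) k)) (e : Fin (n + 1) → (MvPolynomial (Fin N) k)[X])
    (he : ∀ i, φ (e i) = 0)
    (hgen : RingHom.ker φ ≤ Ideal.span (Set.range e) ⊔ (RingHom.ker φ) ^ 2)
    (α : Fin (n + 1) → (MvPolynomial (Fin N) k)[X])
    (hα : aa s p - ∑ i, α i * e i ∈ (RingHom.ker φ) ^ 2)
    (z : Fin n → MvPolynomial (Fin m) k)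
    (hz : Ideal.span (Set.range fun j => φ (α j.succ) + z j * φ (α 0)) ⊔ J = ⊤) :
    ∃ e' : Fin (n + 1) → (MvPolynomial (Fin N) k)[X], (∀ i, φ (e' i) = 0) ∧
      RingHom.ker φ ≤ Ideal.span (Set.range e') ⊔ (RingHom.ker φ) ^ 2 ∧
      aa s p - e' 0 ∈ J.comap φ * RingHom.ker φ ⊔ (RingHom.ker φ) ^ 2 ∧
      ∀ j : Fin n, ∃ β γ : MvPolynomial (Fin N) k, φ (C β * X + C γ) = 0 ∧
        C β * X + C γ - e' j.succ ∈ J.comap φ * RingHom.ker φ ⊔ (RingHom.ker φ) ^ 2 := by
  choose zz hzz using fun j => hφ (z j)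
  -- first move
  let e1 := mvH e zz
  let α1 := mvT α (fun j => -zz j)
  have h1 : ∑ i, α1 i * e1 i = ∑ i, α i * e i := mvH_sum e α zz
  have hα1 : ∀ j : Fin n, φ (α1 j.succ) = φ (α j.succ) + z j * φ (α 0) := by
    intro j
    simp [α1, mvT, hzz]
  -- the coefficients of one
  have h2 : (1 - φ (α1 0)) ∈ Ideal.span (Set.range fun j => φ (α j.succ) + z j * φ (α 0)) ⊔ J :=
    hz ▸ Submodule.mem_top
  obtain ⟨x, hx, y, hy, hxy⟩ := Submodule.mem_sup.1 h2
  obtain ⟨uc, huc⟩ := Ideal.mem_span_range_iff_exists_fun.1 hx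
  choose uu' huu using fun j => hφ (uc j)
  -- second move
  let e2 := mvT e1 uu'
  let α2 := mvH α1 (fun j => -uu' j)
  have h3 : ∑ i, α2 i * e2 i = ∑ i, α1 i * e1 i := mvT_sum e1 α1 uu'
  have hα20 : φ (α2 0) - 1 ∈ J := by
    have h4 : φ (α2 0) - 1 = -y := by
      have h5 : φ (α2 0) = φ (α1 0) + x := by
        simp only [α2, mvH, Fin.cons_zero, map_sub, map_sum, map_mul, map_neg, huu, hα1]
        rw [← huc]
        simp only [neg_mul, Finset.sum_neg_distrib, sub_neg_eq_add]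
      rw [h5]
      linear_combination hxy
    rw [h4]
    exact J.neg_mem hy
  -- third move
  let vv : Fin n → (MvPolynomial (Fin N) k)[X] := fun j => -(α2 j.succ)
  let e3 := mvH e2 vv
  let α3 := mvT α2 (fun j => -vv j)
  have h4 : ∑ i, α3 i * e3 i = ∑ i, α2 i * e2 i := mvH_sum e2 α2 vv
  have hα30 : φ (α3 0 - 1) ∈ J := by
    rw [map_sub, map_one]
    simpa [α3, mvT] using hα20
  have hα3 : ∀ j : Fin n, φ (α3 j.succ) ∈ J := by
    intro j
    have h5 : φ (α3 j.succ) = -(φ (α2 j.succ) * (φ (α2 0) - 1)) := by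
      simp only [α3, mvT, Fin.cons_succ, vv, neg_neg, map_sub, map_mul]
      ring
    rw [h5]
    exact J.neg_mem (J.mul_mem_left _ hα20)
  have he3 : ∀ i, φ (e3 i) = 0 := by
    have t1 : ∀ i, φ (e1 i) = 0 := mvH_zero φ he zz
    have t2 : ∀ i, φ (e2 i) = 0 := mvT_zero φ t1 uu'
    exact mvH_zero φ t2 vv
  have hker : ∀ x, φ x = 0 → x ∈ RingHom.ker φ := fun x hx => RingHom.mem_ker.2 hx
  -- the difference
  have hd : aa s p - e3 0 ∈ J.comap φ * RingHom.ker φ ⊔ (RingHom.ker φ) ^ 2 := by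
    have h5 : aa s p - e3 0 = ((α3 0 - 1) * e3 0 + ∑ j : Fin n, α3 j.succ * e3 j.succ) +
        (aa s p - ∑ i, α i * e i) := by
      rw [← h1, ← h3, ← h4, Fin.sum_univ_succ]
      ring
    rw [h5]
    refine Submodule.add_mem_sup ?_ hα
    refine Ideal.add_mem _ (Ideal.mul_mem_mul hα30 (hker _ (he3 0))) ?_
    exact Ideal.sum_mem _ fun j _ => Ideal.mul_mem_mul (hα3 j) (hker _ (he3 j.succ))
  -- division
  choose q hb hc hq using fun j : Fin n => decomp s p (e3 j.succ)
  refine ⟨mvT e3 q, mvT_zero φ he3 q, ?_, ?_, ?_⟩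
  · refine hgen.trans (sup_le_sup_right ?_ _)
    exact (mvH_span e zz).trans ((mvT_span e1 uu').trans ((mvH_span e2 vv).trans (mvT_span e3 q)))
  · simpa [mvT] using hd
  · intro j
    refine ⟨hb j, hc j, ?_, ?_⟩
    · have h6 := he3 j.succ
      rw [hq j, map_add, map_mul, phi_aa hg, mul_zero, zero_add] at h6
      exact h6
    · have h7 : C (hb j) * X + C (hc j) - mvT e3 q j.succ = -(q j) * (aa s p - e3 0) := by
        simp only [mvT, Fin.cons_succ]
        linear_combination -(hq j)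
      rw [h7]
      exact Ideal.mul_mem_left _ _ hd

end Pool.Agent.H85.AAE2
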