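import Mathlib
import Pool.Agent.H50.AAE2.MAg
import Pool.Agent.H50.AAE2.MAr
import Pool.Agent.H20.AAE2.DIM1
import Pool.Agent.H7.AAE2.AL2
import Pool.Agent.H49.AAE2.GP

/-!
# Project AAE2, module MA: Step 3, good generators of the conormal module
-/

set_option autoImplicit false

open Polynomial

namespace Pool.Agent.H85.AAE2

open Pool.Agent.H71.AAE

universe u

variable {k : Type u} [Field k] {N m r : ℕ}
  (φ : (MvPolynomial (Fin N) k)[X] →ₐ[k] MvPolynomial (Fin m) k)
  {s p : MvPolynomial (Fin N) k}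


/-- (MA2) Step 3 -/
theorem gens3 (hφ : Function.Surjective φ) (hg : φ X ^ 2 = φ (C s) * φ X - φ (C p))
    (hS : ∀ b, ∃ α β : MvPolynomial (Fin N) k, b = φ (C α) + φ (C β) * φ X) (l : ℕ)
    (hdim : TrLE k r (MvPolynomial (Fin m) k ⧸ (cond φ) ^ l))
    (e : Fin (r + 3) → (MvPolynomial (Fin N) k)[X]) (he : ∀ i, φ (e i) = 0)
    (hgen : RingHom.ker φ ≤ Ideal.span (Set.range e) ⊔ (RingHom.ker φ) ^ 2) :
    ∃ e' : Fin (r + 3) → (MvPolynomial (Fin N) k)[X], (∀ i, φ (e' i) = 0) ∧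
      RingHom.ker φ ≤ Ideal.span (Set.range e') ⊔ (RingHom.ker φ) ^ 2 ∧
      aa s p - e' 0 ∈ (cond φ ^ l).comap φ * RingHom.ker φ ⊔ (RingHom.ker φ) ^ 2 ∧
      ∀ j : Fin (r + 2), ∃ β γ : MvPolynomial (Fin N) k, φ (C β * X + C γ) = 0 ∧
        C β * X + C γ - e' j.succ ∈
          (cond φ ^ l).comap φ * RingHom.ker φ ⊔ (RingHom.ker φ) ^ 2 := by
  -- the coefficients of a
  have h1 : aa s p ∈ Ideal.span (Set.range e) ⊔ (RingHom.ker φ) ^ 2 :=
    hgen (RingHom.mem_ker.2 (phi_aa hg))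
  obtain ⟨x, hx, w, hw, hxw⟩ := Submodule.mem_sup.1 h1
  obtain ⟨α, hα⟩ := Ideal.mem_span_range_iff_exists_fun.1 hx
  have hα2 : aa s p - ∑ i, α i * e i ∈ (RingHom.ker φ) ^ 2 := by
    rw [hα, ← hxw]
    simpa using hw
  have h2 := lemma_A φ hφ hg hS e he α hα2
  have h3 : Ideal.span (Set.range fun i => φ (α i)) ⊔ cond φ ^ l = ⊤ := by
    exact Ideal.sup_pow_eq_top h2
  -- general position
  let J : Ideal (MvPolynomial (Fin m) k) := cond φ ^ l
  let π : MvPolynomial (Fin m) k →+* MvPolynomial (Fin m) k ⧸ J := Ideal.Quotient.mk J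
  obtain ⟨z, -, hz⟩ := gp (Q := MvPolynomial (Fin m) k ⧸ J) (δ := r) (s := r + 2)
    (dim_of_trLE hdim) (by omega) ⊤ (fun j => π (φ (α j.succ))) (π (φ (α 0))) (by
      intro P hP hj h0
      exfalso
      apply hP.ne_top
      have h4 : Ideal.span (Set.range fun i => φ (α i)) ⊔ J ≤ P.comap π := by
        refine sup_le ?_ ?_
        · rw [Ideal.span_le]
          rintro _ ⟨i, rfl⟩
          exact Fin.cases h0 (fun j => hj j) i
        · intro y hy
          rw [Ideal.mem_comap, show π y = 0 from Ideal.Quotient.eq_zero_iff_mem.2 hy]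
          exact P.zero_mem
      rw [show Ideal.span (Set.range fun i => φ (α i)) ⊔ J = ⊤ from h3, top_le_iff] at h4
      rw [Ideal.eq_top_iff_one]
      have h5 : (1 : MvPolynomial (Fin m) k) ∈ P.comap π := h4 ▸ Submodule.mem_top
      rw [Ideal.mem_comap, map_one] at h5
      exact h5)
  choose z' hz' using fun j => Ideal.Quotient.mk_surjective (I := J) (z j)
  refine gens3_core φ hφ hg J e he hgen α hα2 z' ?_
  by_contra hne
  obtain ⟨M, hM, hMle⟩ := Ideal.exists_le_maximal _ hne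
  have hJM : J ≤ M := le_sup_right.trans hMle
  have hPr : (M.map π).IsPrime := by
    have := Ideal.map_eq_top_or_isMaximal_of_surjective π Ideal.Quotient.mk_surjective hM
    rcases this with h4 | h4
    · exfalso
      apply hM.ne_top
      rw [Ideal.eq_top_iff_one]
      have h5 : (1 : MvPolynomial (Fin m) k) ∈ (M.map π).comap π := by rw [h4]; trivial
      rw [Ideal.comap_map_of_surjective' π Ideal.Quotient.mk_surjective] at h5
      rwa [Ideal.mk_ker, sup_eq_left.2 hJM] at h5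
    · exact h4.isPrime
  have h6 := hz (M.map π) hPr (fun j => by
    have h7 : φ (α j.succ) + z' j * φ (α 0) ∈ M :=
      hMle (Ideal.mem_sup_left (Ideal.subset_span ⟨j, rfl⟩))
    have h8 := Ideal.mem_map_of_mem π h7
    rw [map_add, map_mul, show π (z' j) = z j from hz' j] at h8
    exact h8)
  exact hPr.ne_top (top_le_iff.1 h6)

end Pool.Agent.H85.AAE2
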